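import Pool.Agent.Helper78.ZM.Stmts

/-!
Project ZM, module ZM-5: the functions `lg` satisfy the sub-mean inequality on all complex discs,
and continuous functions with the sub-mean inequality are plurisubharmonic.
-/

open MeasureTheory Filter Topology
open scoped ContDiff Real ENNReal ComplexOrder

namespace Pool.Agent.Helper51.ZM

open Pool.Agent.Helper78.ZM

/-- Jensen's inequality for an entire function with `g 0 ≠ 0` -/
theorem jensen_le {g : ℂ → ℂ} (hg : Differentiable ℂ g) (h0 : g 0 ≠ 0) :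
    Real.log ‖g 0‖ ≤ Real.circleAverage (fun z => Real.log ‖g z‖) 0 1 := by
  have ha : AnalyticOnNhd ℂ g (Metric.closedBall (0 : ℂ) |1|) := fun z _ =>
    hg.analyticAt z
  have key := AnalyticOnNhd.circleAverage_log_norm (c := (0 : ℂ)) (R := 1) one_ne_zero ha h0
  rw [key]
  have : 0 ≤ ∑ᶠ u, ((MeromorphicOn.divisor g (Metric.closedBall (0 : ℂ) |1|)) u : ℝ) *
      Real.log (1 * ‖(0 : ℂ) - u‖⁻¹) := by
    apply finsum_nonneg
    intro u
    by_cases hu : u ∈ Metric.closedBall (0 : ℂ) |1|
    · apply mul_nonneg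
      · exact_mod_cast MeromorphicOn.AnalyticOnNhd.divisor_nonneg ha u
      · rw [one_mul, Real.log_inv, zero_sub, norm_neg]
        have h1 : ‖u‖ ≤ 1 := by simpa using hu
        have := Real.log_nonpos (norm_nonneg u) h1
        linarith
    · rw [Function.locallyFinsuppWithin.apply_eq_zero_of_notMem _ hu]
      simp
  linarith

theorem z5a (n : ℕ) (Φ : Cn n → Fin n → ℂ) (hΦ : ∀ j, ContDiff ℂ ∞ (fun x => Φ x j))
    (τ a c : ℝ) (hτ : 0 < τ) (ha : 0 ≤ a) (x v : Cn n) : lg Φ τ a c x ≤
      (2 * π)⁻¹ * ∫ θ in (0 : ℝ)..(2 * π), lg Φ τ a c (x + Complex.exp (θ * Complex.I) • v) := by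
  set s : Cn n → ℝ := fun y => ∑ j, ‖Φ y j‖ ^ 2 + τ with hs
  have hspos : ∀ y, 0 < s y := fun y =>
    add_pos_of_nonneg_of_pos (Finset.sum_nonneg fun j _ => sq_nonneg _) hτ
  have hsge : ∀ y, 1 ≤ s y / τ := fun y => by
    rw [one_le_div hτ]
    have : 0 ≤ ∑ j, ‖Φ y j‖ ^ 2 := Finset.sum_nonneg fun j _ => sq_nonneg _
    simp only [hs]; linarith
  have hcont : Continuous s := by
    simp only [hs]
    refine (continuous_finsetSum _ fun j _ => ?_).add continuous_const
    exact ((hΦ j).continuous.norm).pow 2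
  -- the entire function
  set g : ℂ → ℂ := fun ζ => (∑ j, (starRingEnd ℂ) (Φ x j) * Φ (x + ζ • v) j + τ) / τ with hg
  have hgd : Differentiable ℂ g := by
    have hl : Differentiable ℂ (fun ζ : ℂ => x + ζ • v) := by fun_prop
    have h1 : ∀ j, Differentiable ℂ (fun ζ : ℂ => Φ (x + ζ • v) j) := fun j =>
      ((hΦ j).differentiable (by simp)).comp hl
    simp only [hg]
    apply Differentiable.div_const
    apply Differentiable.add_const
    exact Differentiable.fun_sum fun j _ => (h1 j).const_mul _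
  have hg0 : g 0 = ((s x / τ : ℝ) : ℂ) := by
    simp only [hg, hs]
    push_cast
    congr 2
    apply Finset.sum_congr rfl
    intro j _
    rw [zero_smul, add_zero, mul_comm, Complex.mul_conj, Complex.normSq_eq_norm_sq]
    push_cast; rfl
  have hg0n : ‖g 0‖ = s x / τ := by
    rw [hg0, Complex.norm_real, Real.norm_of_nonneg]
    exact le_trans zero_le_one (hsge x)
  have hg0ne : g 0 ≠ 0 := by
    rw [← norm_pos_iff, hg0n]; exact lt_of_lt_of_le one_pos (hsge x)
  -- Cauchy-Schwarz
  have hCS : ∀ ζ : ℂ, ‖g ζ‖ ^ 2 ≤ (s x / τ) * (s (x + ζ • v) / τ) := by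
    intro ζ
    have h1 : ‖∑ j, (starRingEnd ℂ) (Φ x j) * Φ (x + ζ • v) j + (τ : ℂ)‖ ≤
        ∑ j, ‖Φ x j‖ * ‖Φ (x + ζ • v) j‖ + √τ * √τ := by
      refine (norm_add_le _ _).trans ?_
      have : ‖(τ : ℂ)‖ = √τ * √τ := by
        rw [Real.mul_self_sqrt hτ.le, Complex.norm_real, Real.norm_of_nonneg hτ.le]
      rw [this]
      gcongr
      refine (norm_sum_le _ _).trans (le_of_eq ?_)
      apply Finset.sum_congr rfl
      intro j _
      rw [norm_mul, Complex.norm_conj]
    have h2 : (∑ j, ‖Φ x j‖ * ‖Φ (x + ζ • v) j‖ + √τ * √τ) ^ 2 ≤ s x * s (x + ζ • v) := by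
      have := Finset.sum_mul_sq_le_sq_mul_sq (Finset.univ : Finset (Option (Fin n)))
        (fun o => o.elim (√τ) (fun j => ‖Φ x j‖)) (fun o => o.elim (√τ) (fun j => ‖Φ (x + ζ • v) j‖))
      simp only [Fintype.sum_option, Option.elim] at this
      rw [Real.sq_sqrt hτ.le] at this
      simp only [hs]
      calc _ = (√τ * √τ + ∑ j, ‖Φ x j‖ * ‖Φ (x + ζ • v) j‖) ^ 2 := by ring
        _ ≤ _ := this
        _ = _ := by ring
    have h3 : ‖g ζ‖ = ‖∑ j, (starRingEnd ℂ) (Φ x j) * Φ (x + ζ • v) j + (τ : ℂ)‖ / τ := by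
      simp only [hg]
      rw [norm_div, Complex.norm_real, Real.norm_of_nonneg hτ.le]
    rw [h3, div_pow]
    have h4 : (s x / τ) * (s (x + ζ • v) / τ) = s x * s (x + ζ • v) / τ ^ 2 := by
      field_simp
    rw [h4]
    gcongr
    calc _ ≤ (∑ j, ‖Φ x j‖ * ‖Φ (x + ζ • v) j‖ + √τ * √τ) ^ 2 := by gcongr
      _ ≤ _ := h2
  have hlog : ∀ ζ : ℂ, Real.log ‖g ζ‖ ≤
      1 / 2 * (Real.log (s x / τ) + Real.log (s (x + ζ • v) / τ)) := by
    intro ζ
    have hx := hsge x
    have hy := hsge (x + ζ • v)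
    rw [← Real.log_mul (by positivity) (by positivity)]
    rcases eq_or_lt_of_le (norm_nonneg (g ζ)) with h | h
    · rw [← h, Real.log_zero]
      have : 0 ≤ Real.log (s x / τ * (s (x + ζ • v) / τ)) :=
        Real.log_nonneg (one_le_mul_of_one_le_of_one_le hx hy)
      linarith
    · have h1 := Real.log_le_log (by positivity) (hCS ζ)
      rw [Real.log_pow] at h1
      push_cast at h1
      linarith
  -- integrate
  have hJ := jensen_le hgd hg0ne
  rw [hg0n] at hJ
  have hcl : Continuous (fun ζ : ℂ => Real.log (s (x + ζ • v) / τ)) := by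
    have : Continuous (fun ζ : ℂ => s (x + ζ • v) / τ) := by
      apply Continuous.div_const
      exact hcont.comp (by fun_prop)
    exact this.log (fun ζ => (lt_of_lt_of_le one_pos (hsge _)).ne')
  have hint1 : CircleIntegrable (fun z => Real.log ‖g z‖) 0 1 := by
    apply MeromorphicOn.circleIntegrable_log_norm
    intro z _
    exact (hgd.analyticAt z).meromorphicAt
  have hint2 : CircleIntegrable (fun ζ : ℂ =>
      1 / 2 * (Real.log (s x / τ) + Real.log (s (x + ζ • v) / τ))) 0 1 := by
    apply ContinuousOn.circleIntegrable'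
    exact (continuous_const.mul (continuous_const.add hcl)).continuousOn
  have hmono := Real.circleAverage_mono hint1 hint2 (fun z _ => hlog z)
  have hle := hJ.trans hmono
  -- compute the average
  have hcl2 : Continuous (fun θ : ℝ => Real.log (s (x + Complex.exp (θ * Complex.I) • v))) := by
    have : Continuous (fun θ : ℝ => s (x + Complex.exp (θ * Complex.I) • v)) :=
      hcont.comp (by fun_prop)
    exact this.log (fun ζ => (hspos _).ne')
  have havg : Real.circleAverage (fun ζ : ℂ =>
      1 / 2 * (Real.log (s x / τ) + Real.log (s (x + ζ • v) / τ))) 0 1 =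
      1 / 2 * (Real.log (s x) - Real.log τ) + 1 / 2 * ((2 * π)⁻¹ *
        (∫ θ in (0 : ℝ)..(2 * π), Real.log (s (x + Complex.exp (θ * Complex.I) • v))) -
        Real.log τ) := by
    have h1 : (fun ζ : ℂ => 1 / 2 * (Real.log (s x / τ) + Real.log (s (x + ζ • v) / τ))) =
        fun ζ : ℂ => 1 / 2 * (Real.log (s x) - Real.log τ - Real.log τ) +
          1 / 2 * Real.log (s (x + ζ • v)) := by
      funext ζ
      rw [Real.log_div (hspos _).ne' hτ.ne', Real.log_div (hspos _).ne' hτ.ne']
      ring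
    rw [h1, Real.circleAverage]
    simp only [circleMap, zero_add, Complex.ofReal_one, one_mul, smul_eq_mul]
    rw [intervalIntegral.integral_add, intervalIntegral.integral_const,
      intervalIntegral.integral_const_mul]
    · have hpi : (2 * π)⁻¹ * (2 * π) = 1 := inv_mul_cancel₀ (by positivity)
      simp only [smul_eq_mul, sub_zero]
      linear_combination (1 / 2 * (Real.log (s x) - Real.log τ - Real.log τ)) * hpi
    · exact intervalIntegrable_const
    · exact (continuous_const.mul hcl2).intervalIntegrable _ _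
  rw [havg, Real.log_div (hspos _).ne' hτ.ne'] at hle
  have hfin : Real.log (s x) ≤ (2 * π)⁻¹ *
      ∫ θ in (0 : ℝ)..(2 * π), Real.log (s (x + Complex.exp (θ * Complex.I) • v)) := by
    linarith
  have hlgint : (2 * π)⁻¹ *
      ∫ θ in (0 : ℝ)..(2 * π), lg Φ τ a c (x + Complex.exp (θ * Complex.I) • v) =
      a * ((2 * π)⁻¹ *
        ∫ θ in (0 : ℝ)..(2 * π), Real.log (s (x + Complex.exp (θ * Complex.I) • v))) + c := by
    have : (fun θ : ℝ => lg Φ τ a c (x + Complex.exp (θ * Complex.I) • v)) =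
        fun θ : ℝ => a * Real.log (s (x + Complex.exp (θ * Complex.I) • v)) + c := rfl
    rw [this, intervalIntegral.integral_add, intervalIntegral.integral_const,
      intervalIntegral.integral_const_mul]
    · have hpi : (2 * π)⁻¹ * (2 * π) = 1 := inv_mul_cancel₀ (by positivity)
      simp only [smul_eq_mul, sub_zero]
      linear_combination c * hpi
    · exact (continuous_const.mul hcl2).intervalIntegrable _ _
    · exact intervalIntegrable_const
  rw [hlgint]
  have : lg Φ τ a c x = a * Real.log (s x) + c := rfl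
  rw [this]
  gcongr

theorem z5b (n : ℕ) (f : Cn n → ℝ) (U : Set (Cn n)) (hU : U.Nonempty) (hf : Continuous f)
    (hsub : ∀ x v : Cn n, f x ≤
      (2 * π)⁻¹ * ∫ θ in (0 : ℝ)..(2 * π), f (x + Complex.exp (θ * Complex.I) • v)) :
    IsPSH (fun x => (f x : EReal)) U := by
  refine ⟨fun x _ => EReal.coe_ne_top _, ?_, ?_, ?_⟩
  · exact (continuous_coe_real_ereal.comp hf).continuousOn.upperSemicontinuousOn
  · obtain ⟨x, hx⟩ := hU
    exact ⟨x, hx, EReal.coe_ne_bot _⟩
  · intro a v _
    rw [mean]
    refine le_iInf fun g => le_iInf fun hg => le_iInf fun hle => ?_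
    rw [EReal.coe_le_coe_iff]
    refine (hsub a v).trans ?_
    have hpi : 0 ≤ (2 * π)⁻¹ := by positivity
    refine mul_le_mul_of_nonneg_left ?_ hpi
    apply intervalIntegral.integral_mono (by positivity)
    · exact (hf.comp (by fun_prop)).intervalIntegrable _ _
    · exact hg.intervalIntegrable _ _
    · intro θ
      have := hle θ
      simp only [EReal.coe_le_coe_iff] at this
      exact this

theorem z5 : Z5Stmt := ⟨z5a, z5b⟩

end Pool.Agent.Helper51.ZM
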